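import Pool.Agent.V8H88.FS.Fin

/-!
# Compatible systems of any rank: geometric origin is tested by finitely many primes

Let `K` be a number field, `p` a prime number, `S` a finite set of primes of `K` which contains the
primes above `p`, and `n`, `D`, `m` natural numbers. There is a finite set `T` of primes of `K`, disjoint
from `S`, which depends only on these data and has the following property.

Let `(ρ_q)` be a compatible system of irreducible representations of dimension `n` of the absolute
Galois group of `K`, with any field of coefficients, for example (`K = ℚ`) the one attached to an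
algebraic cuspidal automorphic representation of `GL_n`, and `V = H^i(X)(j)` with `X` smooth and
projective over `K`, of dimension at most `D`; let `ρ_p` and `V` be unramified outside `S` and defined
over an extension of `ℚ_p` of degree at most `m`. If for the primes `v ∈ T` all the roots of the
polynomial of the system at `v` are eigenvalues of Frobenius on `V`, then this is so for all `v ∉ S`, and
`ρ_q` is, for all allowed primes `q` and all embeddings of the field of coefficients, a subquotient of a
tensor product of copies of `H^i(X, ℚ̄_q)(j)` and of its dual.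

This is a version of the method of Faltings and Serre for the relation `all Frobenius roots of the first
are Frobenius roots of the second` instead of `to be isomorphic`. Idea of the proof. That all eigenvalues
of `W(g)`, `W = ρ_p`, are eigenvalues of `V(g)` is the vanishing at `g` of matrix coefficients of a
tensor power of `1 ⊕ V ⊕ W`. The image of the group in this tensor power spans an order over `ℤ_p`, of
bounded rank; by the theorem of Hermite and Minkowski there are only finitely many possibilities for the
kernel of the reduction modulo `p` of the order. The set `T` is chosen such that its Frobenius elements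
meet all cosets of all these kernels; by Nakayama's lemma their images span the order. Then one uses our
result `OnePrimeSuffices`.
-/

set_option autoImplicit false

namespace Pool.Agent.Results.MP_7742d9_nt.FinitelyManyPrimes

open Pool.Agent.V8H88.GO Pool.Agent.V8H88.FS NumberField IsDedekindDomain Polynomial Module
open Pool.Agent.W401.Cheb

theorem result (K : Type) [Field K] [NumberField K] (S : Set (HeightOneSpectrum (𝓞 K)))
    (hS : S.Finite) (p : ℕ) [Fact p.Prime]
    (hSp : ∀ v : HeightOneSpectrum (𝓞 K), (p : 𝓞 K) ∈ v.asIdeal → v ∈ S) (D m n : ℕ) :
    ∃ T : Set (HeightOneSpectrum (𝓞 K)), T.Finite ∧ (∀ v ∈ T, v ∉ S) ∧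
      ∀ (E : Type) [Field E] [NumberField E] (H : Cohomology K) (f : CompatibleSystem K E n)
        (ι : E →+* PadicAlgCl p) (x : H.Obj) (F : IntermediateField ℚ_[p] (PadicAlgCl p))
        [FiniteDimensional ℚ_[p] F],
      finrank ℚ_[p] F ≤ m → p ∈ f.primes → H.dim x ≤ D → f.bad ⊆ S → H.bad x ⊆ S →
      UnramifiedOutside S (f.rep p ι) → UnramifiedOutside S (H.rep p x) →
      DefinedOver F (f.rep p ι) → DefinedOver F (H.rep p x) →
      -- all roots are common at the primes of `T`
      (∀ v ∈ T, ∃ N : ℕ, f.poly v ∣ ((H.frob x v).map (algebraMap ℚ E)) ^ N) →
      -- then at all primes outside `S`, and `f` arises from `x`, for all `q`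
      (∀ v ∉ S, ∃ N : ℕ, f.poly v ∣ ((H.frob x v).map (algebraMap ℚ E)) ^ N) ∧
      ∀ (q : ℕ) [Fact q.Prime], q ∈ f.primes → ∀ ι' : E →+* PadicAlgCl q,
        (∃ (l : Type) (a : Fintype l) (b : DecidableEq l)
          (U : GK K →* Matrix l l (PadicAlgCl q)),
          IsTensorPower (H.rep q x) l a b U ∧ IsSubquotient (f.rep q ι') U) ∧
        H.Arises q (f.rep q ι') := by
  obtain ⟨T, hT, hTS, hT'⟩ := finite_all K S hS p hSp D m n
  refine ⟨T, hT, hTS, ?_⟩
  intro E _ _ H f ι x F _ hF hp hD hfS hxS hfu hxu hfF hxF hroot
  have key := hT' E H f ι x F hF hp hD hfS hxS hfu hxu hfF hxF hroot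
  refine ⟨key, ?_⟩
  intro q _ hq ι'
  have hdense : FrobDense K (Set.univ \ S) := (frobDense_univ K).diff hS
  obtain ⟨l, a, b, U, hU, hsub⟩ := all_roots H f x (Set.univ \ S) hdense (fun v hv => key v hv.2)
    q hq ι'
  obtain ⟨y, hy⟩ := tensorPower_sub H q x hU
  exact ⟨⟨l, a, b, U, hU, hsub⟩, y, hsub.trans hy⟩

end Pool.Agent.Results.MP_7742d9_nt.FinitelyManyPrimes
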