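import Pool.Agent.V8H88.UV.One

/-!
# Compatible systems of any rank: one variety for all primes

Let `(ρ_p)` be a compatible system of irreducible representations of dimension `n` of the absolute
Galois group of a number field `K`, for example (`K = ℚ`) the one attached to an algebraic cuspidal
automorphic representation `Π` of `GL_n`.

* (3) If `ρ_p` is a subquotient of the cohomology of a smooth projective variety over `K`, up to a Tate
  twist, for one `p` and one embedding of the field of coefficients, then there is one smooth projective
  variety `Y` over `K` with integers `i`, `j` such that `ρ_q` is a subquotient of `H^i(Y, ℚ̄_q)(j)` for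
  all allowed primes `q` and all embeddings.
* (2) The same is true if there is a smooth projective variety `X` such that, for the primes `v` in a set
  of upper density one, all the roots of the polynomial of the system at `v` are eigenvalues of Frobenius
  on `H^i(X)(j)`.

Our result `OnePrimeSuffices` gives for each `q` a variety which may depend on `q`. For a motive `M_Π` as
in Clozel's conjecture one needs one variety for all `q`. The new ingredient is the following theorem on
representations of abstract groups.

* (1) For all `d`, `n` there is a bound `B` such that for all algebraically closed fields `k` of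
  characteristic zero, all groups `Γ`, all representations `V` of dimension `d` and all irreducible
  representations `W` of dimension `n` of `Γ` over `k`: if all eigenvalues of `W(g)` are eigenvalues of
  `V(g)`, for all `g`, then `W` is a subquotient of a tensor product of at most `B` copies of `V` and of
  its dual.

Idea of the proof. Without the bound (1) is proved by descent, as in `OnePrimeSuffices`. If there were no
bound, the ultraproduct of counterexamples for all `B` would be a pair of representations of the product
of the groups, over the ultraproduct of the fields, with the same properties; the second one is a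
subquotient of some tensor power of the first, and this carries over to almost all the counterexamples.
For (2) the bound leaves finitely many tensor powers for all `q` together, and those which are needed have
the same weight, by the Weil conjecture; so they are subquotients of one cohomology group.
-/

set_option autoImplicit false

namespace Pool.Agent.Results.MP_7742d9_nt.OneVarietyForAllPrimes

open Pool.Agent.V8H88.GO Pool.Agent.V8H88.UV NumberField IsDedekindDomain Polynomial
open Pool.Agent.W401.Cheb

theorem result :
    -- (1) the universal bound
    (∀ d n : ℕ, ∃ B : ℕ, ∀ (k Γ : Type) [Field k] [IsAlgClosed k] [CharZero k] [Group Γ]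
      (V : Γ →* Matrix (Fin d) (Fin d) k) (W : Γ →* Matrix (Fin n) (Fin n) k), IsIrreducible W →
      (∀ g, ∃ N : ℕ, (W g).charpoly ∣ (V g).charpoly ^ N) →
      ∃ w : List Bool, w.length ≤ B ∧ IsSubquotient W (tpw V w)) ∧
    ∀ (K E : Type) [Field K] [NumberField K] [Field E] [NumberField E] (n : ℕ)
      (H : PureCohomology K) (f : CompatibleSystem K E n),
      -- (2) the roots are Frobenius eigenvalues at the primes of a set of upper density one
      (∀ (x : H.Obj) (S : Set (HeightOneSpectrum (𝓞 K))), UpperDensityOne K S →
        (∀ v ∈ S, ∃ N : ℕ, f.poly v ∣ ((H.frob x v).map (algebraMap ℚ E)) ^ N) →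
        ∃ y : H.Obj, ∀ (q : ℕ) [Fact q.Prime], q ∈ f.primes → ∀ ι : E →+* PadicAlgCl q,
          IsSubquotient (f.rep q ι) (H.rep q y)) ∧
      -- (3) geometric origin at one prime
      ((∃ (p : ℕ) (_ : Fact p.Prime) (ι : E →+* PadicAlgCl p) (x : H.Obj),
          p ∈ f.primes ∧ IsSubquotient (f.rep p ι) (H.rep p x)) →
        ∃ y : H.Obj, ∀ (q : ℕ) [Fact q.Prime], q ∈ f.primes → ∀ ι : E →+* PadicAlgCl q,
          IsSubquotient (f.rep q ι) (H.rep q y)) := by
  refine ⟨?_, ?_⟩
  · intro d n
    obtain ⟨B, hB⟩ := bound_all d n
    refine ⟨B, fun k Γ _ _ _ _ V W hW h => hB k Γ V W hW fun g => ?_⟩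
    obtain ⟨N, T', hT'⟩ := h g
    have hnil : IsNilpotent (aeval (W g) (V g).charpoly) := by
      refine ⟨N, ?_⟩
      rw [← map_pow, hT', map_mul, Matrix.aeval_self_charpoly, zero_mul]
    have h4 := Matrix.isNilpotent_charpoly_sub_pow_of_isNilpotent hnil
    have h5 := sub_eq_zero.mp h4.eq_zero
    have h6 := Matrix.aeval_self_charpoly (aeval (W g) (V g).charpoly)
    rw [h5, map_pow, aeval_X, Fintype.card_fin] at h6
    exact h6
  · intro K E _ _ _ _ n H f
    refine ⟨fun x S hS hroot => one_object H f x S (frobDense_of_density K S hS) hroot, ?_⟩
    rintro ⟨p, _, ι, x, hp, hx⟩
    obtain ⟨S, hS, hroot⟩ := independence' H.toCohomology f p hp ι x hx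
    exact one_object H f x S hS hroot

end Pool.Agent.Results.MP_7742d9_nt.OneVarietyForAllPrimes
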