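import Pool.Agent.V8H18.MD.Fin

/-!
# Geometric origin from a set of primes of positive upper density, any rank

Let `(ρ_p)` be a compatible system of irreducible representations of dimension `n` of the absolute
Galois group of a number field `K`, for example (`K = ℚ`) the one attached to an algebraic cuspidal
automorphic representation `Π` of `GL_n`, whose Frobenius polynomials at almost all primes are given by
the Satake parameters of `Π`. Let `X` be a smooth projective variety over `K`, `V = H^i(X, ℚ̄_p)(j)` and
`W = ρ_p` for one `p` and one embedding of the coefficients.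

There is a finite Galois extension `L` of `K` such that the Zariski closure of the image of `Gal(K̄/L)`
under `V ⊕ W` is contained in the identity component of the Zariski closure of the image of
`Gal(K̄/K)`. We show that it is enough to know the Satake parameters at a set of primes of *positive*
upper density:

* Suppose that for the primes `v` in a set of positive upper density, all of them split in `L`, all the
  roots of the polynomial of the system at `v` are eigenvalues of Frobenius on `H^i(X)(j)`. Then `ρ_p`
  is a subquotient of a tensor product of copies of `V`, of its dual and of `H⁰(Spec L)`; so it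
  arises from étale cohomology, and so do all the other members of the compatible system.
* The condition that the primes are split is not needed if the upper density is greater than
  `1 - 1/[L : K]`.
* If the monodromy of `V ⊕ W` is connected (`L = K`) then any set of positive upper density is enough,
  and `ρ_p` is a subquotient of a tensor product of copies of `V` and of its dual.

Idea of the proof. By Chebotarev's theorem the closure `C` of the Frobenius elements has positive Haar
measure. The condition on the eigenvalues is a polynomial condition on the matrix coefficients of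
`V ⊕ W`. Among the Zariski closed sets of positive measure in `C` there is a minimal one `E`, because
the algebra of matrix coefficients is Noetherian. Since the measure of `gE \ E` is small for `g` near
`1`, the intersection of `E` and `gE` has positive measure, and so `gE = E` by minimality. So `C`
contains, up to Zariski closure, a coset of an open subgroup, and then all of `Gal(K̄/L)`, by
connectedness. Then the criterion for common eigenvalues (see `OnePrimeSuffices`) applies to an
irreducible subrepresentation of the restriction of `W` to `Gal(K̄/L)`, and Frobenius reciprocity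
gives the result over `K`.
-/

set_option autoImplicit false

namespace Pool.Agent.Results.MP_7742d9_nt.PositiveDensity

open Pool.Agent.V8H88.GO Pool.Agent.V8H18.MD NumberField IsDedekindDomain Polynomial
open Pool.Agent.W401.Cheb

theorem result (K E : Type) [Field K] [NumberField K] [Field E] [NumberField E] (n : ℕ)
    (H : Cohomology K) (hA : HasArtin H) (f : CompatibleSystem K E n) (x : H.Obj) (p : ℕ)
    [Fact p.Prime] (hp : p ∈ f.primes) (ι : E →+* PadicAlgCl p) :
    -- (1) there are open normal subgroups with connected monodromy
    (∃ Δ : Subgroup (GK K), Δ.Normal ∧ IsOpen (Δ : Set (GK K)) ∧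
      ConnectedOn (H.rep p x) (f.rep p ι) Δ) ∧
    (∀ (Δ : Subgroup (GK K)) [Δ.Normal] [Fintype (GK K ⧸ Δ)] [DecidableEq (GK K ⧸ Δ)],
      IsOpen (Δ : Set (GK K)) → ConnectedOn (H.rep p x) (f.rep p ι) Δ →
      ∀ S : Set (HeightOneSpectrum (𝓞 K)),
      (∀ v ∈ S, ∃ N : ℕ, f.poly v ∣ ((H.frob x v).map (algebraMap ℚ E)) ^ N) →
      -- (2) a set of split primes of positive upper density is enough; (3) so is a set of primes of
      -- upper density greater than `1 - 1/[Γ : Δ]`
      ((UpperDensityAbove K S 0 ∧ ∀ v ∈ S, ∃ σ ∈ Δ, IsFrob v σ) ∨
        UpperDensityAbove K S (1 - 1 / (Nat.card (GK K ⧸ Δ) : ℝ)) →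
      (∃ (l : Type) (a : Fintype l) (b : DecidableEq l)
        (U : GK K →* Matrix l l (PadicAlgCl p)), IsTensorPower (H.rep p x) l a b U ∧
          IsSubquotient (f.rep p ι) (tensor U (permRep (PadicAlgCl p) Δ))) ∧
      ∀ (q : ℕ) [Fact q.Prime], q ∈ f.primes → ∀ κ : E →+* PadicAlgCl q,
        H.Arises q (f.rep q κ))) ∧
    -- (4) connected monodromy
    (ConnectedOn (H.rep p x) (f.rep p ι) ⊤ → ∀ S : Set (HeightOneSpectrum (𝓞 K)),
      (∀ v ∈ S, ∃ N : ℕ, f.poly v ∣ ((H.frob x v).map (algebraMap ℚ E)) ^ N) →
      UpperDensityAbove K S 0 →
      (∃ (l : Type) (a : Fintype l) (b : DecidableEq l)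
        (U : GK K →* Matrix l l (PadicAlgCl p)), IsTensorPower (H.rep p x) l a b U ∧
          IsSubquotient (f.rep p ι) U) ∧
      ∀ (q : ℕ) [Fact q.Prime], q ∈ f.primes → ∀ κ : E →+* PadicAlgCl q,
        H.Arises q (f.rep q κ)) := by
  refine ⟨exists_connectedOn basis _ _, ?_, ?_⟩
  · intro Δ _ _ _ hΔ hconn S hroot hS
    have h1 : Concl (H.rep p x) (f.rep p ι) Δ := by
      rcases hS with ⟨hS, hSΔ⟩ | hS
      · exact pos_density H f x p hp ι Δ hΔ hconn S hS hSΔ hroot
      · exact pos_density H f x p hp ι Δ hΔ hconn _ (density_split K Δ hΔ S hS)
          (fun v hv => hv.2) (fun v hv => hroot v hv.1)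
    refine ⟨h1, fun q _ hq κ => ?_⟩
    exact arises_all H f p hp ι (concl_arises H hA p x _ Δ hΔ h1) q hq κ
  · intro hconn S hroot hS
    obtain ⟨l, a, b, U, hU, hsub⟩ := pos_density_top H f x p hp ι hconn S hS hroot
    refine ⟨⟨l, a, b, U, hU, hsub⟩, fun q _ hq κ => ?_⟩
    obtain ⟨y, hy⟩ := tensorPower_sub H p x hU
    exact arises_all H f p hp ι ⟨y, hsub.trans hy⟩ q hq κ

end Pool.Agent.Results.MP_7742d9_nt.PositiveDensity
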