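import Pool.Agent.V8H88.LR.Gen
import Pool.Agent.V8H88.LR.Three
import Pool.Agent.V8H88.UV.One

/-!
# Ranks three and four: one Satake parameter suffices for geometric origin

Let `f` be the compatible system of an algebraic cuspidal automorphic representation `Π` of `GL_n`, with coefficients in a number
field `E` and irreducible members `ρ_p`, and let `x` stand for a triple (smooth projective variety, degree, Tate twist). Assume
that for all primes `v` in a set of upper density one the Frobenius polynomial of `x` has ONE root in common with the polynomial
of `f` (one Satake parameter of `Π_v` is a Frobenius eigenvalue of `x`).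

If `n = 4`, there is ONE `y` (variety, degree, twist) such that for all allowed primes `p` and all embeddings `ρ_p` is a subquotient
of the `p`-adic cohomology group `y`. The same holds for `n = 3`, if one `ρ_q` is neither monomial nor isomorphic to a twist of its
dual (the case in which no geometric construction is known). The purely algebraic statement: if two representations `V`, `W` of
a group have a common eigenvalue at each element, and `W` is irreducible of dimension 4 (or 3, not monomial, not self-dual up to
twist), then `W` is a subquotient of a tensor product of copies of `V` and its dual.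

In dimension 3 the second condition cannot be dropped: representations into the special orthogonal group in dimension 3 have
the eigenvalue `1` in common with the trivial representation.
-/

set_option autoImplicit false

namespace Pool.Agent.Results.MP_7742d9_nt.RanksThreeAndFour

open NumberField IsDedekindDomain Pool.Agent.W401.Cheb Pool.Agent.V8H88.GO Pool.Agent.V8H88.LR
open Pool.Agent.V8H88.UV Polynomial

/-- The condition on the representation `W` of dimension `n`: `n` is four, or `n` is three and `W` is neither monomial nor
self-dual up to a twist. -/
def LowRank {Γ k : Type} [Group Γ] [Field k] {n : ℕ} (W : Γ →* Matrix (Fin n) (Fin n) k) : Prop :=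
  n = 4 ∨ (n = 3 ∧ ¬ Monomial W ∧ ¬ EssSelfDual W)

theorem algebra {k Γ : Type} [Field k] [IsAlgClosed k] [CharZero k] [Group Γ] {d n : ℕ}
    (V : Γ →* Matrix (Fin d) (Fin d) k) (W : Γ →* Matrix (Fin n) (Fin n) k)
    (hW : IsIrreducible W) (hn : LowRank W) (h : ∀ g, com (V g) (W g) = 0) :
    ∃ (ι : Type) (a : Fintype ι) (b : DecidableEq ι) (U : Γ →* Matrix ι ι k),
      IsTensorPower V ι a b U ∧ IsSubquotient W U := by
  have hd : Nonempty (Fin d) := by
    by_contra hempty
    rw [not_nonempty_iff] at hempty
    have h1 := h 1
    unfold com at h1
    have : IsEmpty (Fin d × Fin n) := inferInstance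
    rw [Matrix.det_isEmpty] at h1
    exact one_ne_zero h1
  rcases hn with rfl | ⟨rfl, h1, h2⟩
  · exact of_trivial V W hW h fun Z hc _ hZ => four_trivial hW Z hc hZ
  · exact of_trivial V W hW h fun Z hc _ hZ => three_trivial hW h1 h2 Z hc hZ

/-- **Theorem.** (1) Let `V`, `W` be representations of a group over an algebraically closed field of characteristic zero, `W`
irreducible, of dimension 4, or of dimension 3, not monomial and not self-dual up to a twist. If `V g`, `W g` have a common
eigenvalue for each `g`, then `W` is a subquotient of a tensor product of copies of `V` and its dual. (2) Let `H` be a cohomology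
theory, `f` a compatible system of irreducible representations of rank `n`, `x` an object and `S` a set of primes of upper density
one, such that for all `v ∈ S` the polynomial of `f` and the Frobenius polynomial of `x` have a common root. Suppose that the
representation of `f` for one allowed prime `q` and one embedding satisfies the conditions of (1). Then there is ONE object `y` such
that the representations of `f`, for all allowed primes `p` and all embeddings, are subquotients of the `p`-adic representations of
`y`. -/
theorem result :
    (∀ (k Γ : Type) [Field k] [IsAlgClosed k] [CharZero k] [Group Γ] (d n : ℕ)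
      (V : Γ →* Matrix (Fin d) (Fin d) k) (W : Γ →* Matrix (Fin n) (Fin n) k),
      IsIrreducible W → LowRank W →
      (∀ g, ∃ c : k, (V g).charpoly.IsRoot c ∧ (W g).charpoly.IsRoot c) →
      ∃ (ι : Type) (a : Fintype ι) (b : DecidableEq ι) (U : Γ →* Matrix ι ι k),
        IsTensorPower V ι a b U ∧ IsSubquotient W U) ∧
    (∀ (K E : Type) [Field K] [NumberField K] [Field E] [NumberField E] (n : ℕ)
      (H : PureCohomology K) (f : CompatibleSystem K E n) (x : H.Obj)
      (S : Set (HeightOneSpectrum (𝓞 K))), UpperDensityOne K S →
      (∀ v ∈ S, ¬ IsCoprime (f.poly v) ((H.frob x v).map (algebraMap ℚ E))) →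
      ∀ (q : ℕ) [Fact q.Prime], q ∈ f.primes → ∀ κ : E →+* PadicAlgCl q, LowRank (f.rep q κ) →
      ∃ y : H.Obj, ∀ (p : ℕ) [Fact p.Prime], p ∈ f.primes → ∀ ι : E →+* PadicAlgCl p,
        IsSubquotient (f.rep p ι) (H.rep p y)) := by
  refine ⟨?_, ?_⟩
  · intro k Γ _ _ _ _ d n V W hW hn h
    refine algebra V W hW hn fun g => ?_
    obtain ⟨c, h1, h2⟩ := h g
    exact det_kron_eq_zero _ _ c h1 h2
  · intro K E _ _ _ _ n H f x S hS hroot q _ hq κ hn
    have hSd := frobDense_of_density K S hS
    obtain ⟨l, a, b, U, hU, hsub⟩ := algebra (H.rep q x) (f.rep q κ) (f.irreducible q κ hq) hn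
      (com_of_roots H.toCohomology f x S hSd hroot q hq κ)
    obtain ⟨z, hz⟩ := tensorPower_sub H.toCohomology q x hU
    obtain ⟨S', hS', hroot'⟩ := independence' H.toCohomology f q hq κ z (hsub.trans hz)
    exact one_object H f z S' hS' hroot'

end Pool.Agent.Results.MP_7742d9_nt.RanksThreeAndFour
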